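import Pool.Agent.H98.XH.WDH
import Pool.Agent.H4.SX.ALL

/-! # [H98 XH ALH] All integer points of the surface, condition `HG` (as `H4/SX/ALL.lean`) -/

namespace Pool.Agent.H98.XH

open Finset Polynomial Pool.Agent.H4.SX Pool.Agent.H37.TE Pool.Agent.H98.TE Pool.Agent.H4.TE Pool.Agent.H4.TP

theorem large_ofH {n m : ℕ} {F : ℤ[X][X][X]} (hn : 3 ≤ n) (h : HypG n m F)
    (hc : Alpha (topf n F) ∨ Beta (topf n F) ∨ Gamma (topf n F)) (hR : HG n m F) : LargeAll F := by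
  rcases hc with h1 | h1 | h1
  · exact large_alphaH hn h h1 hR
  · exact large_beta (by omega) h h1
  · exact large_gamma hn h.H h.lead h1

theorem pos_surfH {n m : ℕ} {F : ℤ[X][X][X]} (hn : 3 ≤ n) (h : HypG n m F) (hR : HG n m F)
    (hfin : AllFin n m) (hL : LargeAll F) :
    ∃ (R R' : ℤ[X][X]) (A0 : ℕ), R ≠ 0 ∧ R' ≠ 0 ∧ ∀ a : ℕ, A0 ≤ a → ∀ x y : ℤ,
      ev3 (a : ℤ) x y F = 0 → evalEval (a : ℤ) x R = 0 ∧ evalEval (a : ℤ) y R' = 0 := by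
  obtain ⟨R1, R1', A1, h1, h1', hA1⟩ := half_allH hn h hR hfin hL
  obtain ⟨R2, R2', A2, h2, h2', hA2⟩ := half_allH hn (h.swap (by omega)) (hg_sw h hR) hfin
    (large_sw h.H hL)
  refine ⟨R1 * R2', R1' * R2, A1 + A2, mul_ne_zero h1 h2', mul_ne_zero h1' h2,
    fun a ha x y hxy => ?_⟩
  rw [evalEval_mul, evalEval_mul]
  rcases le_total |y| |x| with hle | hle
  · obtain ⟨e1, e2⟩ := hA1 a (by omega) x y hxy hle
    rw [e1, e2, zero_mul, zero_mul]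
    exact ⟨rfl, rfl⟩
  · obtain ⟨e1, e2⟩ := hA2 a (by omega) y x (by rw [swF_ev3 h.H]; exact hxy) hle
    rw [e1, e2, mul_zero, mul_zero]
    exact ⟨rfl, rfl⟩

private theorem ng2_eval (a x : ℤ) (R : ℤ[X][X]) :
    evalEval a x (ng2 R) = evalEval (-a) x R := by
  have h : (evalEvalRingHom a x).comp ng2 = evalEvalRingHom (-a) x := by
    refine Polynomial.ringHom_ext' ?_ ?_
    · refine Polynomial.ringHom_ext' (Subsingleton.elim _ _) ?_
      simp [ng2, evalEvalRingHom]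
    · simp [ng2, evalEvalRingHom]
  have h1 := congrArg (fun φ => φ R) h
  exact h1

theorem surfH {n m : ℕ} {F : ℤ[X][X][X]} (hn : 3 ≤ n) (h : HypG n m F)
    (hc : Alpha (topf n F) ∨ Beta (topf n F) ∨ Gamma (topf n F)) (hR : HG n m F)
    (hfin : AllFin n m) :
    ∃ R R' : ℤ[X][X], R ≠ 0 ∧ R' ≠ 0 ∧ ∀ a x y : ℤ, ev3 a x y F = 0 →
      evalEval a x R = 0 ∧ evalEval a y R' = 0 := by
  obtain ⟨R1, R1', A1, h1, h1', hA1⟩ := pos_surfH hn h hR hfin (large_ofH hn h hc hR)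
  obtain ⟨R2, R2', A2, h2, h2', hA2⟩ := pos_surfH hn (hypG_ng h) (hg_ng hR) hfin
    (large_ofH hn (hypG_ng h) (cases_ng hc) (hg_ng hR))
  obtain ⟨B, hB⟩ : ∃ B : ℤ, B = (A1 : ℤ) + A2 := ⟨_, rfl⟩
  obtain ⟨p, hp⟩ : ∃ p : ℤ[X], p = ∏ b ∈ Icc (-B) B, (X - C b) := ⟨_, rfl⟩
  have hp0 : p ≠ 0 := by
    rw [hp]
    exact prod_ne_zero_iff.2 fun b _ => X_sub_C_ne_zero b
  have hng : ∀ R : ℤ[X][X], R ≠ 0 → ng2 R ≠ 0 := by
    intro R hR0 h0
    apply hR0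
    rw [← ng2_ng2 R, h0, map_zero]
  refine ⟨C p * (R1 * ng2 R2), C p * (R1' * ng2 R2'), mul_ne_zero (C_ne_zero.2 hp0)
    (mul_ne_zero h1 (hng _ h2)), mul_ne_zero (C_ne_zero.2 hp0) (mul_ne_zero h1' (hng _ h2')),
    fun a x y hxy => ?_⟩
  rw [evalEval_mul, evalEval_mul, evalEval_mul, evalEval_mul, evalEval_C a x, evalEval_C a y, ng2_eval,
    ng2_eval]
  rcases lt_or_ge B |a| with hlt | hge
  · rcases le_total 0 a with ha | ha
    · obtain ⟨k, rfl⟩ := Int.eq_ofNat_of_zero_le ha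
      rw [abs_of_nonneg ha] at hlt
      obtain ⟨e1, e2⟩ := hA1 k (by omega) x y hxy
      rw [e1, e2, zero_mul, zero_mul, mul_zero]
      exact ⟨rfl, rfl⟩
    · obtain ⟨k, hk⟩ := Int.eq_ofNat_of_zero_le (neg_nonneg.2 ha)
      rw [abs_of_nonpos ha] at hlt
      have h3 := hA2 k (by omega) x y (by
        rw [ev3_ng, ← hk, neg_neg]
        exact hxy)
      rw [← hk] at h3
      rw [h3.1, h3.2, mul_zero, mul_zero, mul_zero, mul_zero]
      exact ⟨rfl, rfl⟩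
  · have h3 : p.eval a = 0 := by
      rw [hp, eval_prod]
      refine prod_eq_zero (mem_Icc.2 (abs_le.1 hge)) ?_
      rw [eval_sub, eval_X, eval_C, sub_self]
    rw [h3, zero_mul, zero_mul]
    exact ⟨rfl, rfl⟩

end Pool.Agent.H98.XH
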