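import Pool.Agent.H98.XG.Fin

/-!
# THEOREM XH (MP_821da1_nt): definitions and the chapters as propositions

`M + 1` points `P_i = (a_i, x_i, y_i)`, `i : Fin (M + 1)`, in place of the two points of `H98/XG/Defs.lean`; derivatives
are taken at the first `M` of them, the last one, `Fin.last M`, has the plain value.

`Grow R a`: `R log a_i ≤ log a_k` for `i < k`.
`SizM N0 a x Υ I J`: the sizes of the auxiliary function, `Υ` is the common height.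
`SmM c Y a x y ν`: the sum of `c(l) ∏_{i < M} tau_{ν_i}(l_i, P_i) · m_{l_M}(P_M)` over all `l = (l_0, .., l_M)`.

`NZM n F` (helper97): the zero estimate; `SLXM n F θ` (helper48): the auxiliary function. `GEN`, `LOC`, `DEN`, `FYN`
are those of `H98/XG`.

THEOREM (file `Fin.lean`): `LOC F`, `NZM n F`, `GEN F θ`, `SLXM n F θ`, `FYN F θ` imply that there are only finitely
many points near `θ`.
-/

namespace Pool.Agent.H98.XH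

open Finset Polynomial Pool.Agent.H37.TE Pool.Agent.H98.TE Pool.Agent.H4.TP Pool.Agent.H98.XG

/-- the growth condition for the points -/
def Grow {M : ℕ} (R : ℝ) (a : Fin (M + 1) → ℕ) : Prop :=
  ∀ i k : Fin (M + 1), i < k → R * Real.log (a i) ≤ Real.log (a k)

/-- the sizes of the auxiliary function: `Υ` is the common height -/
structure SizM {M : ℕ} (N0 : ℝ) (a : Fin (M + 1) → ℕ) (x : Fin (M + 1) → ℤ) (Υ : ℝ)
    (I J : Fin (M + 1) → ℕ) : Prop where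
  lo : Real.log (a (Fin.last M)) ≤ Υ
  hi : Υ ≤ N0 * Real.log (a (Fin.last M))
  I : ∀ i, I i * Real.log (a i) ≤ Υ
  J : ∀ i, J i * Real.log |(x i : ℝ)| ≤ Υ

/-- `∑ c(l) ∏_{i < M} tau_{ν_i}(l_i, P_i) m_{l_M}(P_M)`; `y` is the last coordinate of the last point -/
noncomputable def SmM {M n : ℕ} {I J : Fin (M + 1) → ℕ}
    (c : (∀ i : Fin (M + 1), Lam (I i) n (J i)) → ℤ) (Y : Fin M → MvPowerSeries (Fin 2) ℚ)
    (a : Fin (M + 1) → ℕ) (x : Fin (M + 1) → ℤ) (y : ℤ) (ν : Fin M → Fin 2 →₀ ℕ) : ℚ :=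
  ∑ l : (∀ i : Fin (M + 1), Lam (I i) n (J i)), (c l : ℚ) *
    (∏ i : Fin M, tau (Y i) (a i.castSucc) (x i.castSucc) (l i.castSucc) (ν i)) *
      (mv (a (Fin.last M)) (x (Fin.last M)) y (l (Fin.last M)) : ℚ)

/-- CHAPTER NZM (helper97): the zero estimate for `M + 1` points, Thue-Siegel form -/
def NZM (n : ℕ) (F : ℤ[X][X][X]) : Prop :=
  ∀ (M Q j : ℕ) (del N0 : ℝ), 1 ≤ Q → 1 ≤ j → 0 < del → ∃ d : ℕ, ∀ ε : ℝ, 0 < ε →
    ∃ η : ℝ, 0 < η ∧ ∃ (A0 : ℕ) (R : ℝ), ∀ (a : Fin (M + 1) → ℕ) (x y : Fin (M + 1) → ℤ),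
      (∀ i, A0 ≤ a i) → Grow R a →
      (∀ i, (a i : ℤ) ^ j ≤ |x i| ^ Q) → (∀ i, |x i| ^ Q ≤ (a i : ℤ) ^ (j + 1)) →
      (∀ i, Gen d ε (a i) (x i)) → (∀ i, fy F (a i) (x i) (y i) ≠ 0) →
      (∀ i, ev3 (a i : ℤ) (x i) (y i) F = 0) →
      ∀ Y : Fin M → MvPowerSeries (Fin 2) ℚ,
        (∀ i : Fin M, IsLoc F (a i.castSucc) (x i.castSucc) (y i.castSucc) (Y i)) →
      ∀ (Υ : ℝ) (I J : Fin (M + 1) → ℕ), SizM N0 a x Υ I J →
      ∀ c : (∀ i : Fin (M + 1), Lam (I i) n (J i)) → ℤ, c ≠ 0 →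
        (∀ l, |((c l : ℤ) : ℝ)| ≤ Real.exp (η * Υ)) →
      ∃ ν : Fin M → Fin 2 →₀ ℕ,
        ∑ i : Fin M, ((ν i 0 + ν i 1 : ℕ) : ℝ) * Real.log (a i.castSucc) ≤ del * Υ ∧
        SmM c Y a x (y (Fin.last M)) ν ≠ 0

/-- CHAPTER SLXM (helper48): the auxiliary function for `M + 1` points -/
def SLXM (n : ℕ) (F : ℤ[X][X][X]) (θ : ℝ) : Prop :=
  ∃ J0 : ℕ, ∀ Q j : ℕ, 1 ≤ Q → J0 ≤ j → ∃ (M : ℕ) (del N0 c1 : ℝ), 0 < del ∧ 0 < c1 ∧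
    ∀ η : ℝ, 0 < η → ∃ (A0 : ℕ) (R : ℝ), ∀ (a : Fin (M + 1) → ℕ) (x y : Fin (M + 1) → ℤ),
      (∀ i, A0 ≤ a i) → Grow R a → (∀ i, Near F θ c1 Q j (a i) (x i) (y i)) →
      ∃ (Υ : ℝ) (I J : Fin (M + 1) → ℕ), SizM N0 a x Υ I J ∧
      ∃ c : (∀ i : Fin (M + 1), Lam (I i) n (J i)) → ℤ, c ≠ 0 ∧
        (∀ l, |((c l : ℤ) : ℝ)| ≤ Real.exp (η * Υ)) ∧
      ∀ Y : Fin M → MvPowerSeries (Fin 2) ℚ,
        (∀ i : Fin M, IsLoc F (a i.castSucc) (x i.castSucc) (y i.castSucc) (Y i)) →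
      ∀ ν : Fin M → Fin 2 →₀ ℕ,
        ∑ i : Fin M, ((ν i 0 + ν i 1 : ℕ) : ℝ) * Real.log (a i.castSucc) ≤ del * Υ →
        SmM c Y a x (y (Fin.last M)) ν = 0

end Pool.Agent.H98.XH
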