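import Pool.Agent.H98.XH.Defs

/-! # [H98 XH FIN] Only finitely many points near `θ`, from `M + 1` points (assembly of the chapters) -/

namespace Pool.Agent.H98.XH

open Finset Polynomial Pool.Agent.H37.TE Pool.Agent.H98.TE Pool.Agent.H4.TP Pool.Agent.H98.XG

/-- a growing sequence -/
theorem exists_seq {α : Type} (S : ℕ → α → Prop) (f : α → ℕ) (h : ∀ A : ℕ, ∃ p, A ≤ f p ∧ S A p)
    (A : ℕ) (g : ℕ → ℕ) : ∃ s : ℕ → α, (∀ i, ∃ B, A ≤ B ∧ B ≤ f (s i) ∧ S B (s i)) ∧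
      ∀ i, g (f (s i)) ≤ f (s (i + 1)) := by
  choose p hp using h
  obtain ⟨s, h0, h1⟩ : ∃ s : ℕ → α, s 0 = p A ∧ ∀ i, s (i + 1) = p (A + g (f (s i))) :=
    ⟨fun i => Nat.rec (p A) (fun _ q => p (A + g (f q))) i, rfl, fun _ => rfl⟩
  refine ⟨s, fun i => ?_, fun i => ?_⟩
  · cases i with
    | zero => exact ⟨A, le_rfl, by rw [h0]; exact (hp A).1, by rw [h0]; exact (hp A).2⟩
    | succ i => exact ⟨A + g (f (s i)), Nat.le_add_right _ _, by rw [h1]; exact (hp _).1,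
        by rw [h1]; exact (hp _).2⟩
  · rw [h1]
    exact (Nat.le_add_left _ _).trans (hp _).1

/-- only finitely many points near `θ` in every window -/
theorem fin_nearM {n : ℕ} {F : ℤ[X][X][X]} {θ : ℝ} (hL : LOC F) (hN : NZM n F) (hG : GEN F θ)
    (hS : SLXM n F θ) (hF : FYN F θ) :
    ∃ J0 : ℕ, 1 ≤ J0 ∧ ∀ Q j : ℕ, 1 ≤ Q → J0 ≤ j → ∃ c1 : ℝ, 0 < c1 ∧ ∃ A0 : ℕ,
      ∀ (a : ℕ) (x y : ℤ), A0 ≤ a → ¬ Near F θ c1 Q j a x y := by
  obtain ⟨J0, hJ⟩ := hS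
  refine ⟨J0 + 1, by omega, fun Q j hQ hj => ?_⟩
  obtain ⟨M, del, N0, c1, hdel, hc1, hS⟩ := hJ Q j hQ (by omega)
  obtain ⟨c2, hc2, hG⟩ := hG Q j hQ (by omega)
  obtain ⟨c3, hc3, A3, hF⟩ := hF Q j hQ (by omega)
  obtain ⟨d, hN⟩ := hN M Q j del N0 hQ (by omega) hdel
  obtain ⟨ε, hε, A2, hG⟩ := hG d
  obtain ⟨η, hη, A1, R1, hN⟩ := hN ε hε
  obtain ⟨A4, R4, hS⟩ := hS η hη
  obtain ⟨c0, hc0⟩ : ∃ c0 : ℝ, c0 = min c1 (min c2 c3) := ⟨_, rfl⟩
  have e1 : c0 ≤ c1 := by rw [hc0]; exact min_le_left _ _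
  have e2 : c0 ≤ c2 := by rw [hc0]; exact (min_le_right _ _).trans (min_le_left _ _)
  have e3 : c0 ≤ c3 := by rw [hc0]; exact (min_le_right _ _).trans (min_le_right _ _)
  refine ⟨c0, by rw [hc0]; exact lt_min hc1 (lt_min hc2 hc3), ?_⟩
  by_contra hcon
  push Not at hcon
  obtain ⟨R, hR⟩ : ∃ R : ℝ, R = max 1 (max R1 R4) := ⟨_, rfl⟩
  have hR0 : 1 ≤ R := by rw [hR]; exact le_max_left _ _
  have hR1 : R1 ≤ R := by rw [hR]; exact (le_max_left _ _).trans (le_max_right _ _)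
  have hR4 : R4 ≤ R := by rw [hR]; exact (le_max_right _ _).trans (le_max_right _ _)
  -- the sequence of points
  obtain ⟨s, hs, hgr⟩ := exists_seq (α := ℕ × ℤ × ℤ)
    (fun _ p => Near F θ c0 Q j p.1 p.2.1 p.2.2) (fun p => p.1)
    (fun A => by
      obtain ⟨a, x, y, ha, h⟩ := hcon A
      exact ⟨(a, x, y), ha, h⟩) (A1 + A2 + A3 + A4 + 1)
    (fun a => ⌈Real.exp (R * Real.log a)⌉₊)
  have hA : ∀ i, A1 + A2 + A3 + A4 + 1 ≤ (s i).1 := by
    intro i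
    obtain ⟨B, h1, h2, -⟩ := hs i
    exact h1.trans h2
  have hnear : ∀ i, Near F θ c0 Q j (s i).1 (s i).2.1 (s i).2.2 := by
    intro i
    obtain ⟨B, -, -, h⟩ := hs i
    exact h
  have hl0 : ∀ i, 0 ≤ Real.log ((s i).1 : ℝ) := fun i =>
    Real.log_nonneg (by have := hA i; exact_mod_cast (by omega : 1 ≤ (s i).1))
  have hstep : ∀ i, R * Real.log ((s i).1 : ℝ) ≤ Real.log ((s (i + 1)).1 : ℝ) := by
    intro i
    have h3 : Real.exp (R * Real.log ((s i).1 : ℝ)) ≤ ((s (i + 1)).1 : ℝ) :=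
      (Nat.le_ceil _).trans (by exact_mod_cast hgr i)
    rwa [← Real.le_log_iff_exp_le (by
      have h4 := hA (i + 1)
      have : 0 < (s (i + 1)).1 := by omega
      exact_mod_cast this)] at h3
  have hmono : ∀ i k : ℕ, R * Real.log ((s i).1 : ℝ) ≤ Real.log ((s (i + 1 + k)).1 : ℝ) := by
    intro i k
    induction k with
    | zero => exact hstep i
    | succ k ih =>
      refine ih.trans ?_
      have h1 := hstep (i + 1 + k)
      have h2 := hl0 (i + 1 + k)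
      have h3 : Real.log ((s (i + 1 + k)).1 : ℝ) ≤ R * Real.log ((s (i + 1 + k)).1 : ℝ) :=
        le_mul_of_one_le_left h2 hR0
      exact h3.trans h1
  have hgrow : ∀ R' : ℝ, R' ≤ R → Grow (M := M) R' (fun i => (s i).1) := by
    intro R' hR' i k hik
    have h1 : ((i : ℕ) : ℕ) < k := hik
    obtain ⟨e, he⟩ := Nat.exists_eq_add_of_lt h1
    have h2 := hmono (i : ℕ) e
    have h3 : (i : ℕ) + 1 + e = (k : ℕ) := by omega
    rw [h3] at h2
    exact (mul_le_mul_of_nonneg_right hR' (hl0 i)).trans h2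
  obtain ⟨Υ, I, J, hsz, c, hc, hcH, hz⟩ := hS (fun i => (s i).1) (fun i => (s i).2.1)
    (fun i => (s i).2.2) (fun i => by have := hA i; omega) (hgrow R4 hR4)
    (fun i => (hnear i).mono e1)
  have hfy : ∀ i, fy F (s i).1 (s i).2.1 (s i).2.2 ≠ 0 := fun i =>
    hF _ _ _ (by have := hA i; omega) ((hnear i).mono e3)
  choose Y hY using fun i : ℕ => hL (s i).1 (s i).2.1 (s i).2.2 (hnear i).ev (hfy i)
  obtain ⟨ν, hν, hne⟩ := hN (fun i => (s i).1) (fun i => (s i).2.1) (fun i => (s i).2.2)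
    (fun i => by have := hA i; omega) (hgrow R1 hR1) (fun i => (hnear i).lo)
    (fun i => (hnear i).hi) (fun i => hG _ _ _ (by have := hA i; omega) ((hnear i).mono e2))
    (fun i => hfy i) (fun i => (hnear i).ev) (fun i => Y i) (fun i => hY i) Υ I J hsz c hc hcH
  exact hne (hz (fun i => Y i) (fun i => hY i) ν hν)

end Pool.Agent.H98.XH
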