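import Pool.Agent.H4.SX.Defs
import Pool.Agent.H98.XH.NPH
import Pool.Agent.H4.SX.FCX
import Pool.Agent.H4.SX.RDX
import Pool.Agent.H4.TE.ING
import Pool.Agent.H4.TE.IRF
import Pool.Agent.H4.TP.MID
import Pool.Agent.H4.TP.BND
import Pool.Agent.H8.TM.MXB

/-! # [H98 XH LAH] All members with a large parameter: all integer points are at most `a^C`, condition `Cond`

As `H4/SX/LRX.lean` with `no_ptH` (`NPH.lean`). -/

namespace Pool.Agent.H98.XH

open Finset Polynomial Pool.Agent.H4.SX Pool.Agent.H37.TE Pool.Agent.H98.TE Pool.Agent.H4.TE Pool.Agent.H4.TP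

/-- every real root of the top form satisfies the condition -/
def HG (n m : ℕ) (F : ℤ[X][X][X]) : Prop :=
  ∀ θ : ℝ, (topm n m F).eval θ = 0 → Cond n (minpoly ℚ θ).natDegree

open Pool.Agent.H34.AC Pool.Agent.H97.FB Pool.Agent.H97.TU Pool.Agent.H97.NW Pool.Agent.H8.AW
  Pool.Agent.H8.TM in
private theorem lrx_coeff {n m : ℕ} {F : ℤ[X][X][X]} (H : DegF n m F) (a : ℕ) :
    (Fm F a).coeff (Finsupp.single 1 n) = ((F.coeff n).coeff 0).eval (a : ℤ) := by
  classical
  have hs : Fm F a = ∑ b ∈ range (n + 1), ∑ i ∈ range (n + 1 - b), ∑ j ∈ range (m + 1),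
      MvPolynomial.monomial (Finsupp.single 0 i + Finsupp.single 1 b)
        (cf3 F j i b * (a : ℤ) ^ j) := by
    unfold Fm
    rw [Pool.Agent.H98.TE.ev3_sum H]
    refine sum_congr rfl fun b _ => sum_congr rfl fun i _ => sum_congr rfl fun j _ => ?_
    have h1 : ((cf3 F j i b : ℤ) : MvPolynomial (Fin 2) ℤ) = MvPolynomial.C (cf3 F j i b) := rfl
    rw [MvPolynomial.X_pow_eq_monomial, MvPolynomial.X_pow_eq_monomial, ← map_pow, mul_assoc,
      MvPolynomial.monomial_mul, MvPolynomial.C_mul_monomial, h1, MvPolynomial.C_mul_monomial,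
      mul_one, mul_one]
  have hne : ∀ i b : ℕ, (Finsupp.single 0 i + Finsupp.single 1 b : Fin 2 →₀ ℕ) = Finsupp.single 1 n ↔
      i = 0 ∧ b = n := by
    intro i b
    constructor
    · intro h
      have h0 := DFunLike.congr_fun h 0
      have h1 := DFunLike.congr_fun h 1
      simp at h0 h1
      exact ⟨h0, h1⟩
    · rintro ⟨rfl, rfl⟩
      simp
  rw [hs, MvPolynomial.coeff_sum]
  rw [sum_eq_single n]
  · rw [MvPolynomial.coeff_sum, sum_eq_single 0]
    · rw [MvPolynomial.coeff_sum]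
      rw [eval_eq_sum_range' (Nat.lt_succ_of_le (H.deg 0 n))]
      refine sum_congr rfl fun j _ => ?_
      rw [MvPolynomial.coeff_monomial, if_pos ((hne 0 n).2 ⟨rfl, rfl⟩)]
      rfl
    · intro i _ hi
      rw [MvPolynomial.coeff_sum]
      refine sum_eq_zero fun j _ => ?_
      rw [MvPolynomial.coeff_monomial, if_neg fun h => hi ((hne i n).1 h).1]
    · intro h
      exact absurd (mem_range.2 (by omega)) h
  · intro b _ hb
    rw [MvPolynomial.coeff_sum]
    refine sum_eq_zero fun i _ => ?_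
    rw [MvPolynomial.coeff_sum]
    refine sum_eq_zero fun j _ => ?_
    rw [MvPolynomial.coeff_monomial, if_neg fun h => hb ((hne i b).1 h).2]
  · intro h
    exact absurd (mem_range.2 (by omega)) h

open Pool.Agent.H97.TU in
private theorem lrx_ld {m : ℕ} {f : ℤ[X][X]} (b : ℕ) :
    (ldU m f).coeff b = (f.coeff b).coeff m := by
  unfold ldU
  rw [finsetSum_coeff]
  simp only [coeff_C_mul, coeff_X_pow, mul_ite, mul_one, mul_zero]
  rw [Finset.sum_ite_eq]
  split_ifs with h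
  · rfl
  · rw [mem_range, not_lt] at h
    rw [coeff_eq_zero_of_natDegree_lt (p := f) (by omega)]
    simp

/-- an irreducible polynomial over `ℂ(t)` of degree at least two is not constant in `t` -/
private theorem lrx_const {f1 : ℤ[X][X]} (hn : 2 ≤ f1.natDegree)
    (hirr : Irreducible (f1.map (mapRingHom (Int.castRingHom ℂ))))
    (h0 : ∀ i, (f1.coeff i).natDegree ≤ 0) : False := by
  obtain ⟨q, hq⟩ : ∃ q : ℂ[X], f1.map (mapRingHom (Int.castRingHom ℂ)) = q.map C := by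
    refine ⟨(f1.map (evalRingHom (0 : ℤ))).map (Int.castRingHom ℂ), ?_⟩
    ext1 i
    rw [coeff_map, coeff_map, coeff_map, coeff_map]
    have h1 := eq_C_of_natDegree_le_zero (h0 i)
    rw [h1]
    simp
  have hinj : Function.Injective (mapRingHom (Int.castRingHom ℂ)) :=
    map_injective _ (RingHom.injective_int _)
  have hdq : q.natDegree = f1.natDegree := by
    rw [← natDegree_map_eq_of_injective hinj f1, hq, natDegree_map_eq_of_injective C_injective]
  have hq0 : q.degree ≠ 0 := by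
    intro h
    have h9 : q.natDegree = 0 := natDegree_eq_of_degree_eq_some (by rw [h]; rfl)
    omega
  obtain ⟨z, hz⟩ := IsAlgClosed.exists_root q hq0
  obtain ⟨q', hq'⟩ := dvd_iff_isRoot.2 hz
  rw [hq, hq', Polynomial.map_mul] at hirr
  have hq'0 : q' ≠ 0 := by
    rintro rfl
    rw [mul_zero] at hq'
    rw [hq', natDegree_zero] at hdq
    omega
  have hd' : q'.natDegree + 1 = q.natDegree := by
    rw [hq', natDegree_mul (X_sub_C_ne_zero z) hq'0, natDegree_X_sub_C]
    omega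
  rcases hirr.isUnit_or_isUnit rfl with h | h
  · have h1 := natDegree_eq_zero_of_isUnit h
    rw [natDegree_map_eq_of_injective C_injective, natDegree_X_sub_C] at h1
    omega
  · have h1 := natDegree_eq_zero_of_isUnit h
    rw [natDegree_map_eq_of_injective C_injective] at h1
    omega

open Pool.Agent.H34.AC Pool.Agent.H97.FB Pool.Agent.H97.TU Pool.Agent.H97.NW Pool.Agent.H8.AW
  Pool.Agent.H8.TM Pool.Agent.H97.FC Pool.Agent.H52.AC Pool.Agent.H72.ES Pool.Agent.H87.SA2 in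
theorem large_alphaH {n m : ℕ} {F : ℤ[X][X][X]} (hn : 3 ≤ n) (h : HypG n m F)
    (hA : Alpha (topf n F)) (hR : HG n m F) : LargeAll F := by
  classical
  obtain ⟨c, f1, hc, hf1, hirr⟩ := hA
  obtain ⟨f, hf⟩ : ∃ f, f = topf n F := ⟨_, rfl⟩
  have H := h.H
  have hl := h.lead
  have hnat : f.natDegree = n := by
    refine natDegree_eq_of_le_of_coeff_ne_zero ?_ ?_
    · rw [natDegree_le_iff_coeff_eq_zero]
      intro b hb
      rw [hf, tpf_coeff, if_neg (by omega)]
    · rw [hf, tpf_coeff, if_pos le_rfl, Nat.sub_self]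
      exact hl
  have hfm : ∀ i, (f.coeff i).natDegree ≤ m := by
    intro i
    rw [hf, tpf_coeff]
    split_ifs
    · exact H.deg _ _
    · simp
  rw [← hf] at hf1
  have hnat1 : f1.natDegree = n := by
    rw [← hnat, hf1, natDegree_C_mul hc]
  have hcm : c.natDegree ≤ m := by
    have h1 := hfm n
    rw [hf1, coeff_C_mul] at h1
    have h2 : f1.coeff n ≠ 0 := by
      rw [← hnat1, coeff_natDegree, Ne, leadingCoeff_eq_zero]
      rintro rfl
      simp at hnat1
      omega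
    rw [natDegree_mul hc h2] at h1
    omega
  obtain ⟨m1, hm1⟩ : ∃ m1, m1 = m - c.natDegree := ⟨_, rfl⟩
  have hmm : c.natDegree + m1 = m := by omega
  have hfm1 : ∀ i, (f1.coeff i).natDegree ≤ m1 := by
    intro i
    have h1 := hfm i
    rw [hf1, coeff_C_mul] at h1
    rcases eq_or_ne (f1.coeff i) 0 with h0 | h0
    · rw [h0]
      simp
    · rw [natDegree_mul hc h0] at h1
      omega
  have hlead : ∀ b, c.leadingCoeff * (ldU m1 f1).coeff b = (f.coeff b).coeff m := by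
    intro b
    rw [lrx_ld, hf1, coeff_C_mul, ← hmm, coeff_mul_add_eq_of_natDegree_le le_rfl (hfm1 b)]
    rfl
  have hlcQ : ((c.leadingCoeff : ℤ) : ℚ) ≠ 0 := by
    exact_mod_cast leadingCoeff_ne_zero.2 hc
  have htq : topq n m F = C ((c.leadingCoeff : ℤ) : ℚ) * (ldU m1 f1).map (Int.castRingHom ℚ) := by
    ext b
    rw [topq_coeff, coeff_C_mul, coeff_map, eq_intCast, ← Int.cast_mul, hlead b, hf, tpf_coeff]
    unfold cf3
    split_ifs
    · rfl
    · simp
  have hl1 : (ldU m1 f1).natDegree = n := by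
    have h1 := h.tq
    rw [htq, natDegree_C_mul hlcQ, natDegree_map_eq_of_injective (RingHom.injective_int _)] at h1
    exact h1
  have hsq1 : Squarefree ((ldU m1 f1).map (Int.castRingHom ℚ)) :=
    h.sq.squarefree_of_dvd ⟨C ((c.leadingCoeff : ℤ) : ℚ), by rw [htq, mul_comm]⟩
  have hR1 : ∀ θ : ℝ, aeval θ (ldU m1 f1) = 0 → Cond n (minpoly ℚ θ).natDegree := by
    intro θ hθ
    apply hR θ
    rw [topm_eq, htq, Polynomial.map_mul, eval_mul, Polynomial.map_map]
    have h1 : (algebraMap ℚ ℝ).comp (Int.castRingHom ℚ) = algebraMap ℤ ℝ := RingHom.ext_int _ _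
    rw [h1, eval_map (p := ldU m1 f1), ← aeval_def, hθ, mul_zero]
  have hm1' : 1 ≤ m1 := by
    by_contra h0
    have h1 : m1 = 0 := by omega
    rw [h1] at hfm1
    exact lrx_const (by omega) hirr hfm1
  obtain ⟨ν, hν⟩ : ∃ ν, ν = n * (n + 1) := ⟨_, rfl⟩
  have hν4 : 4 ≤ ν := by
    rw [hν]
    nlinarith
  obtain ⟨C0, A0, R1, hno⟩ := no_ptH hn hm1' hν4 hnat1 hfm1 hl1 hsq1 hirr hR1
  obtain ⟨c1, hfac⟩ := fac_point n (by omega)
  obtain ⟨B, hB⟩ := fm_coeff H
  obtain ⟨A1, hA1⟩ := nz hl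
  obtain ⟨cc, hcc⟩ : ∃ cc, cc = C0 + cA (n * (n + 1)) := ⟨_, rfl⟩
  obtain ⟨E1, hE1⟩ : ∃ E1, E1 = cR n * cc * (2 * n + 3) := ⟨_, rfl⟩
  obtain ⟨E2, hE2⟩ : ∃ E2, E2 = ⌈|R1|⌉₊ * (2 * n + 3) := ⟨_, rfl⟩
  refine ⟨A0 + A1 + B + 3 + (m + 1) * (c1 + 1) * E1 + E2, fun a ha x y hxy => ?_⟩
  have ha1 : 1 ≤ a := by omega
  have hp : ((F.coeff n).coeff 0).eval (a : ℤ) ≠ 0 := hA1 a (by omega)
  have hlc : (F.coeff n).coeff 0 = c * f1.coeff n := by
    have h1 : f.coeff n = (F.coeff n).coeff 0 := by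
      rw [hf, tpf_coeff, if_pos le_rfl, Nat.sub_self]
    rw [← h1, hf1, coeff_C_mul]
  have hca : c.eval (a : ℤ) ≠ 0 := by
    intro h0
    apply hp
    rw [hlc, eval_mul, h0, zero_mul]
  have hca1 : (f1.coeff n).eval (a : ℤ) ≠ 0 := by
    intro h0
    apply hp
    rw [hlc, eval_mul, h0, mul_zero]
  have hfa : fa (topf n F) a = Polynomial.C (c.eval (a : ℤ)) * fa f1 a := by
    rw [← hf, hf1, fa, fa, Polynomial.map_mul, map_C]
    rfl
  have hdf1 : (fa f1 a).natDegree = n := by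
    refine natDegree_eq_of_le_of_coeff_ne_zero ?_ ?_
    · rw [fa]
      refine natDegree_map_le.trans ?_
      rw [hnat1]
    · rw [fa, coeff_map]
      exact hca1
  obtain ⟨Hh, hHh⟩ : ∃ Hh, Hh = B * a ^ m + 2 := ⟨_, rfl⟩
  have hHa : Hh ≤ a ^ (m + 1) := by
    have h3 : 1 ≤ a ^ m := Nat.one_le_pow _ _ ha1
    have h4 : B + 2 ≤ a := by omega
    calc Hh = B * a ^ m + 2 := hHh
      _ ≤ B * a ^ m + 2 * a ^ m := by omega
      _ = (B + 2) * a ^ m := by ring
      _ ≤ a * a ^ m := Nat.mul_le_mul_right _ h4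
      _ = a ^ (m + 1) := by ring
  obtain ⟨F', hF'd, hF'i, hF't, hF'y, hF'v, hF'c⟩ := hfac (Fm F a) Hh (by omega) (fm_deg H a)
    (by rw [lrx_coeff H a]; exact hp)
    (fun e => (hB a ha1 e).trans (by rw [hHh]; push_cast; linarith)) x y (by
      rw [vl_fm]
      exact hxy)
  have hing : INg (fa (mo n f1) a) F' := by
    intro K' _ _ hK' X Y hXY
    have hXY2 : vl (Fm F a) X Y = 0 := by
      obtain ⟨Q, hQ⟩ := hF'd
      have h1 : vl (Fm F a) X Y = vl F' X Y * vl Q X Y := by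
        rw [hQ]
        unfold vl
        exact MvPolynomial.eval₂_mul _ _
      rw [h1, hXY, zero_mul]
    rcases ing H (by omega) hp K' hK' X Y hXY2 with h1 | ⟨θ, hθ⟩
    · exact Or.inl h1
    · refine Or.inr ?_
      rw [hfa, map_mul, aeval_C] at hθ
      rcases mul_eq_zero.1 hθ with h2 | h2
      · exfalso
        apply hca
        have h3 : ((c.eval (a : ℤ) : ℤ) : K') = 0 := by simpa using h2
        exact_mod_cast h3
      · rw [fa_mo]
        exact rt_cen (by omega) hdf1 h2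
  obtain ⟨Hk, hHk2, hHk1, hHk3⟩ : ∃ Hk : ℕ, 2 ≤ Hk ∧ Hh ^ c1 ≤ Hk ∧ Hk ≤ a ^ ((m + 1) * (c1 + 1)) := by
    refine ⟨Hh ^ (c1 + 1), ?_, Nat.pow_le_pow_right (by omega) (by omega), ?_⟩
    · calc 2 ≤ Hh := by omega
        _ = Hh ^ 1 := (pow_one _).symm
        _ ≤ Hh ^ (c1 + 1) := Nat.pow_le_pow_right (by omega) (by omega)
    · rw [pow_mul]
      exact Nat.pow_le_pow_left hHa _
  by_contra hcon
  obtain ⟨CC, hCC⟩ : ∃ CC, CC = A0 + A1 + B + 3 + (m + 1) * (c1 + 1) * E1 + E2 := ⟨_, rfl⟩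
  rw [← hCC] at hcon
  have hmax : a ^ CC < max x.natAbs y.natAbs := by
    by_contra hc0
    rw [not_lt] at hc0
    apply hcon
    rw [Int.abs_eq_natAbs, Int.abs_eq_natAbs]
    constructor
    · exact_mod_cast (le_max_left _ _).trans hc0
    · exact_mod_cast (le_max_right _ _).trans hc0
  have hb1 : Hk ^ (cR n * cc * (2 * n + 3)) < max x.natAbs y.natAbs := by
    rw [← hE1]
    refine lt_of_le_of_lt ?_ hmax
    calc Hk ^ E1 ≤ (a ^ ((m + 1) * (c1 + 1))) ^ E1 := Nat.pow_le_pow_left hHk3 _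
      _ = a ^ ((m + 1) * (c1 + 1) * E1) := by rw [← pow_mul]
      _ ≤ a ^ CC := Nat.pow_le_pow_right ha1 (by omega)
  obtain ⟨P, hP1, hP2, hP3⟩ := redX n hn cc (by omega) (fa (mo n f1) a) F' hF'i hF't hF'y hing
    Hk hHk2 (fun e => (hF'c e).trans (by exact_mod_cast hHk1)) x y hF'v hb1
  have hell : R1 * Real.log a ≤ P.ell := by
    have hla : 0 ≤ Real.log a := Real.log_nonneg (by exact_mod_cast ha1)
    have h1 : (E2 : ℝ) * Real.log a ≤ Real.log ((max x.natAbs y.natAbs : ℕ) : ℝ) := by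
      rw [← Real.log_pow]
      apply Real.log_le_log
      · have : (0 : ℝ) < a := by exact_mod_cast ha1
        positivity
      · have h2 : a ^ E2 ≤ max x.natAbs y.natAbs :=
          (Nat.pow_le_pow_right ha1 (by omega)).trans hmax.le
        exact_mod_cast h2
    have h2 : Real.log ((max x.natAbs y.natAbs : ℕ) : ℝ) ≤ ((2 * n + 3 : ℕ) : ℝ) * P.ell := by
      unfold Ptd.ell
      rw [← Real.log_pow]
      apply Real.log_le_log
      · have h3 : 0 < max x.natAbs y.natAbs := by omega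
        exact_mod_cast h3
      · exact hP2
    have h3 : (E2 : ℝ) = (⌈|R1|⌉₊ : ℝ) * ((2 * n + 3 : ℕ) : ℝ) := by
      rw [hE2]
      push_cast
      ring
    rw [h3] at h1
    have h4 : (0 : ℝ) < ((2 * n + 3 : ℕ) : ℝ) := by positivity
    have h5 : ((2 * n + 3 : ℕ) : ℝ) * ((⌈|R1|⌉₊ : ℝ) * Real.log a) ≤
        ((2 * n + 3 : ℕ) : ℝ) * P.ell := by
      linarith
    have h6 := le_of_mul_le_mul_left h5 h4
    have h7 : R1 ≤ (⌈|R1|⌉₊ : ℝ) := (le_abs_self _).trans (Nat.le_ceil _)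
    nlinarith
  subst hν
  exact hno a (by omega) P (P.thr_mono (by omega) hP1) hell (fun θ hθ => hP3 n θ hθ)

end Pool.Agent.H98.XH
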