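import Pool.Agent.H98.XH.LAH
import Pool.Agent.H4.SX.SYM
import Pool.Agent.H4.SX.MOB

/-! # [H98 XH SYH] The condition `HG` is invariant under `x ↔ y`, `t ↦ -t` and linear substitutions

As `H4/SX/SYM.lean`, `MOB.lean`. -/

namespace Pool.Agent.H98.XH

open Finset Polynomial Pool.Agent.H4.SX Pool.Agent.H37.TE Pool.Agent.H98.TE Pool.Agent.H4.TE Pool.Agent.H4.TP

section sym

variable {n m : ℕ} {F : ℤ[X][X][X]}

theorem hg_sw (h : HypG n m F) (hR : HG n m F) : HG n m (swF F) := by
  intro θ hθ
  rw [topm_eq, swF_topq, ← reflect_map] at hθ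
  obtain ⟨g, hg⟩ : ∃ g, g = topq n m F := ⟨_, rfl⟩
  have hgn : g.natDegree = n := by rw [hg]; exact h.tq
  rw [← hg] at hθ
  have hgc : g.coeff n ≠ 0 := by
    have hg0 : g ≠ 0 := by
      intro h0
      have h1 := h.tq0
      rw [← hg, h0, coeff_zero] at h1
      exact h1 rfl
    rw [← hgn]
    exact leadingCoeff_ne_zero.2 hg0
  have h0 : θ ≠ 0 := by
    intro h0
    rw [h0, ← coeff_zero_eq_eval_zero, coeff_reflect, revAt_le (Nat.zero_le n), Nat.sub_zero, coeff_map] at hθ
    exact hgc ((map_eq_zero _).1 hθ)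
  have h1 : (topm n m F).eval θ⁻¹ = 0 := by
    rw [topm_eq, ← hg, eval_map]
    let _ : Invertible θ⁻¹ := invertibleOfNonzero (inv_ne_zero h0)
    have h2 := (eval₂_reflect_eq_zero_iff (algebraMap ℚ ℝ) θ⁻¹ n g hgn.le).1
    apply h2
    rw [invOf_eq_inv, inv_inv, ← eval_map, ← reflect_map]
    exact hθ
  have h2 := hR _ h1
  have h3 : IsIntegral ℚ θ := by
    refine IsAlgebraic.isIntegral ⟨reflect n g, ?_, ?_⟩
    · intro h4
      have h5 := congrArg (fun p => coeff p 0) h4
      simp only [coeff_reflect, coeff_zero, revAt_le (Nat.zero_le n), Nat.sub_zero] at h5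
      exact hgc h5
    · rw [aeval_def, ← eval_map, ← reflect_map]
      exact hθ
  rwa [minpoly_inv h3 h0] at h2

theorem hg_ng (hR : HG n m F) : HG n m (ngF F) := by
  intro θ hθ
  apply hR
  rw [topm_eq, topq_ng, Polynomial.map_mul, eval_mul] at hθ
  rw [topm_eq]
  rcases mul_eq_zero.1 hθ with h | h
  · exfalso
    rw [map_C, eval_C] at h
    exact (pow_ne_zero m (by norm_num : (-1 : ℚ) ≠ 0)) ((map_eq_zero _).1 h)
  · exact h

end sym

variable {α β γ δ : ℤ}

/-- the value of a form at `(u, v)` -/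
private theorem mob_val (n : ℕ) (P : MvPolynomial (Fin 2) ℤ) (u v : ℝ) :
    MvPolynomial.aeval ![u, v] (MvPolynomial.homogeneousComponent n P) = ∑ l ∈ range (n + 1),
      ((P.coeff (Finsupp.single 0 (n - l) + Finsupp.single 1 l) : ℤ) : ℝ) * u ^ (n - l) * v ^ l := by
  rw [top_cf, map_sum]
  refine sum_congr rfl fun l _ => ?_
  rw [map_mul, map_mul, map_pow, map_pow, MvPolynomial.aeval_X, MvPolynomial.aeval_X,
    MvPolynomial.aeval_C]
  rfl

private theorem mob_hom (n : ℕ) (P : MvPolynomial (Fin 2) ℤ) (u v s : ℝ) :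
    MvPolynomial.aeval ![u * s, v * s] (MvPolynomial.homogeneousComponent n P) =
      MvPolynomial.aeval ![u, v] (MvPolynomial.homogeneousComponent n P) * s ^ n := by
  rw [mob_val, mob_val, sum_mul]
  refine sum_congr rfl fun l hl => ?_
  rw [mem_range] at hl
  have h1 : s ^ n = s ^ (n - l) * s ^ l := by
    rw [← pow_add]
    congr 1
    omega
  rw [h1, mul_pow, mul_pow]
  ring

theorem hg_lin {n m : ℕ} (hn : 3 ≤ n) (F : ℕ → MvPolynomial (Fin 2) ℤ) (hdet : α * δ - β * γ = 1)
    (hg : MvPolynomial.homogeneousComponent n (F m) ≠ 0)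
    (hR : ∀ θ : ℝ, MvPolynomial.aeval ![θ, 1] (MvPolynomial.homogeneousComponent n (F m)) = 0 →
      Cond n (minpoly ℚ θ).natDegree) :
    HG n m (F3 m (fun j => lin α β γ δ (F j))) := by
  intro θ hθ
  have e1 : (topm n m (F3 m (fun j => lin α β γ δ (F j)))).eval θ =
      MvPolynomial.aeval ![1, θ] (MvPolynomial.homogeneousComponent n (lin α β γ δ (F m))) := by
    rw [mob_val]
    unfold topm
    rw [eval_finsetSum]
    refine sum_congr rfl fun l _ => ?_
    rw [eval_mul, eval_C, eval_pow, eval_X, one_pow, mul_one, cf3, coeff_f3, finsetSum_coeff]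
    have h1 : ∑ j ∈ range (m + 1), (C ((lin α β γ δ (F j)).coeff
        (Finsupp.single 0 (n - l) + Finsupp.single 1 l)) * X ^ j : ℤ[X]).coeff m =
        (lin α β γ δ (F m)).coeff (Finsupp.single 0 (n - l) + Finsupp.single 1 l) := by
      rw [sum_eq_single m]
      · rw [coeff_C_mul, coeff_X_pow, if_pos rfl, mul_one]
      · intro j _ hj
        rw [coeff_C_mul, coeff_X_pow, if_neg (Ne.symm hj), mul_zero]
      · intro h
        exact absurd (mem_range.2 (Nat.lt_succ_self m)) h
    rw [h1]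
  have e2 : MvPolynomial.aeval ![1, θ] (MvPolynomial.homogeneousComponent n
      (lin α β γ δ (F m))) = MvPolynomial.aeval ![(α : ℝ) + β * θ, γ + δ * θ]
        (MvPolynomial.homogeneousComponent n (F m)) := by
    rw [lin_homog]
    unfold lin
    rw [← AlgHom.comp_apply]
    congr 1
    apply MvPolynomial.algHom_ext
    intro i
    fin_cases i <;> simp
  rw [e1, e2] at hθ
  by_cases h0 : (γ : ℝ) + δ * θ = 0
  · have hδ : δ ≠ 0 := by
      rintro rfl
      have h1 : (γ : ℝ) = 0 := by simpa using h0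
      have h2 : γ = 0 := by exact_mod_cast h1
      rw [h2] at hdet
      simp at hdet
    have hδ' : (δ : ℝ) ≠ 0 := by exact_mod_cast hδ
    have h1 : θ = ((-(γ : ℚ) / δ : ℚ) : ℝ) := by
      push_cast
      rw [eq_div_iff hδ']
      linear_combination h0
    have h2 : minpoly ℚ θ = X - C (-(γ : ℚ) / δ) := by
      rw [h1]
      exact minpoly.eq_X_sub_C ℝ (-(γ : ℚ) / δ)
    rw [h2, natDegree_X_sub_C]
    exact Or.inl (by omega)
  · obtain ⟨θ', hθ'⟩ : ∃ θ' : ℝ, θ' = (α + β * θ) / (γ + δ * θ) := ⟨_, rfl⟩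
    have h1 : θ' * (γ + δ * θ) = α + β * θ := by
      rw [hθ', div_mul_cancel₀ _ h0]
    have h2 : MvPolynomial.aeval ![θ', 1] (MvPolynomial.homogeneousComponent n (F m)) = 0 := by
      have h3 := mob_hom n (F m) θ' 1 (γ + δ * θ)
      rw [h1, one_mul, hθ] at h3
      rcases mul_eq_zero.1 h3.symm with h4 | h4
      · exact h4
      · exact absurd (pow_eq_zero_iff (by omega) |>.1 h4) h0
    have h5 : IsIntegral ℚ θ' := by
      rw [← isAlgebraic_iff_isIntegral]
      refine ⟨∑ l ∈ range (n + 1), C ((((F m).coeff (Finsupp.single 0 (n - l) +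
        Finsupp.single 1 l) : ℤ)) : ℚ) * X ^ (n - l), ?_, ?_⟩
      · intro hz
        apply hg
        rw [top_cf]
        refine sum_eq_zero fun l hl => ?_
        rw [mem_range] at hl
        have h6 := congrArg (fun q : ℚ[X] => q.coeff (n - l)) hz
        simp only [finsetSum_coeff, coeff_C_mul, coeff_X_pow, coeff_zero] at h6
        rw [sum_eq_single l] at h6
        · rw [if_pos rfl, mul_one] at h6
          have h7 : (F m).coeff (Finsupp.single 0 (n - l) + Finsupp.single 1 l) = 0 := by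
            exact_mod_cast h6
          rw [h7, map_zero, zero_mul, zero_mul]
        · intro k hk hkl
          rw [mem_range] at hk
          rw [if_neg (by omega), mul_zero]
        · intro h
          exact absurd (mem_range.2 hl) h
      · rw [mob_val] at h2
        rw [map_sum, ← h2]
        refine sum_congr rfl fun l _ => ?_
        rw [map_mul, map_pow, aeval_X, aeval_C, one_pow, mul_one]
        simp
    exact (hR θ' h2).mono (mob_deg hdet h5 h0 h1)

end Pool.Agent.H98.XH
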