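import Pool.Agent.H98.XH.Fin
import Pool.Agent.H98.XH.SYH
import Pool.Agent.H4.SX.AXW
import Pool.Agent.H4.SX.SMF
import Pool.Agent.H4.TP.RES
import Pool.Agent.H4.TP.BND
import Pool.Agent.H4.TP.MID

/-! # [H98 XH WDH] The windows and all points with `|y| ≤ |x|`, condition `HG`

As `H4/SX/WDH.lean`, `HLF.lean`; near the roots of degree `r`, `2 r ≥ n`, there are only finitely many points
(`AllFin n m`: from the chapters of THEOREM XH). -/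

namespace Pool.Agent.H98.XH

open Finset Polynomial Pool.Agent.H4.SX Pool.Agent.H37.TE Pool.Agent.H98.TE Pool.Agent.H4.TP
  Pool.Agent.H98.XG

private theorem wtd_mono {D D' : ℕ} (h : D ≤ D') {G : ℤ[X][X][X]} (hG : TD D D D G) :
    TD D' D' D' G :=
  ⟨hG.1.trans h, fun k => ⟨(hG.2 k).1.trans h, fun j => ((hG.2 k).2 j).trans h⟩⟩

private theorem wtd_F {n m : ℕ} {F : ℤ[X][X][X]} (H : DegF n m F) :
    TD (n + m) (n + m) (n + m) F := by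
  refine ⟨H.nat.trans (by omega), fun k => ⟨?_, fun j => (H.deg j k).trans (by omega)⟩⟩
  rw [natDegree_le_iff_coeff_eq_zero]
  intro a ha
  exact H.tot a k (by omega)

/-- only finitely many points near `θ` in every window `(Q, j)`, `j ≥ J0` -/
def FinP (F : ℤ[X][X][X]) (θ : ℝ) : Prop :=
  ∃ J0 : ℕ, 1 ≤ J0 ∧ ∀ Q j : ℕ, 1 ≤ Q → J0 ≤ j → ∃ c1 : ℝ, 0 < c1 ∧ ∃ A0 : ℕ,
    ∀ (a : ℕ) (x y : ℤ), A0 ≤ a → ¬ Near F θ c1 Q j a x y

/-- the theorem on the comparable region -/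
def AllFin (n m : ℕ) : Prop := ∀ (F : ℤ[X][X][X]) (θ : ℝ), HypG n m F → (topm n m F).eval θ = 0 →
  3 ≤ (minpoly ℚ θ).natDegree → 5 ≤ n → FinP F θ

/-- one window near one root -/
private theorem win_root {n m : ℕ} {F : ℤ[X][X][X]} (hn : 3 ≤ n) (h : HypG n m F)
    (hR : HG n m F) (hfin : AllFin n m) (θ : ℝ) :
    ∃ J0 : ℕ, ∀ Q j : ℕ, 1 ≤ Q → J0 ≤ j → ∃ (R R' : ℤ[X][X]) (A0 : ℕ) (c0 : ℝ), R ≠ 0 ∧ R' ≠ 0 ∧ 0 < c0 ∧
      ((topm n m F).eval θ = 0 → ∀ a : ℕ, A0 ≤ a → ∀ x y : ℤ,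
      ev3 (a : ℤ) x y F = 0 → |y| ≤ |x| → (a : ℤ) ^ j ≤ |x| ^ Q → |x| ^ Q ≤ (a : ℤ) ^ (j + 1) →
      |(y : ℝ) / x - θ| ≤ c0 → evalEval (a : ℤ) x R = 0 ∧ evalEval (a : ℤ) y R' = 0) := by
  by_cases hθ : (topm n m F).eval θ = 0
  · by_cases hs : 2 * (minpoly ℚ θ).natDegree < n
    · refine ⟨n, fun Q j hQ hj => ?_⟩
      obtain ⟨G, D, A0, c0, hc0, hG0, hGT, hGn, hG⟩ := aux_window h.H (by omega) θ hθ
        ((topm_simple h.sq).2 θ hθ) hs Q j hQ hj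
      have hcn : F.coeff n ≠ 0 := by
        intro h0
        have hl := h.lead
        rw [h0, coeff_zero] at hl
        exact hl rfl
      have hnat : F.natDegree = n := natDegree_eq_of_le_of_coeff_ne_zero h.H.nat hcn
      have hirr := irr_frac h.irr (by omega)
      have hsw : 1 ≤ (Bivariate.swap F).natDegree := by
        refine (by omega : 1 ≤ n).trans (le_natDegree_of_ne_zero ?_)
        intro h0
        apply h.lead'
        have h1 := swap_coeff F n 0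
        rw [h0, coeff_zero] at h1
        exact h1.symm
      obtain ⟨R, R', hR, hR', -, -, hRz⟩ := elim3
        (wtd_mono (show n + m ≤ n + m + D by omega) (wtd_F h.H))
        (wtd_mono (show D ≤ n + m + D by omega) hGT) hirr (by omega) hsw hG0 (by omega)
      exact ⟨R, R', A0, c0, hR, hR', hc0, fun _ a ha x y h1 h2 h3 h4 h5 =>
        hRz a x y h1 (hG a ha x y h1 h2 h3 h4 h5)⟩
    · have h5 : 5 ≤ n := (hR θ hθ).resolve_left hs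
      have h3 : 3 ≤ (minpoly ℚ θ).natDegree := by
        obtain ⟨r, hr⟩ : ∃ r, r = (minpoly ℚ θ).natDegree := ⟨_, rfl⟩
        rw [← hr] at hs ⊢
        omega
      obtain ⟨J0, -, hJ⟩ := hfin F θ h hθ h3 h5
      refine ⟨J0, fun Q j hQ hj => ?_⟩
      obtain ⟨c1, hc1, A0, hA0⟩ := hJ Q j hQ hj
      exact ⟨1, 1, A0, c1, one_ne_zero, one_ne_zero, hc1, fun _ a ha x y e1 e2 e3 e4 e5 =>
        absurd ⟨e1, e2, e3, e4, e5⟩ (hA0 a x y ha)⟩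
  · exact ⟨0, fun Q j _ _ => ⟨1, 1, 0, 1, one_ne_zero, one_ne_zero, one_pos,
      fun h' => absurd h' hθ⟩⟩

theorem window_halfH {n m : ℕ} {F : ℤ[X][X][X]} (hn : 3 ≤ n) (h : HypG n m F) (hR : HG n m F)
    (hfin : AllFin n m) : ∃ J0 : ℕ, n ≤ J0 ∧ ∀ Q j : ℕ, 1 ≤ Q → J0 ≤ j →
    ∃ (R R' : ℤ[X][X]) (A0 : ℕ), R ≠ 0 ∧ R' ≠ 0 ∧ ∀ a : ℕ, A0 ≤ a → ∀ x y : ℤ,
      ev3 (a : ℤ) x y F = 0 → |y| ≤ |x| → (a : ℤ) ^ j ≤ |x| ^ Q → |x| ^ Q ≤ (a : ℤ) ^ (j + 1) →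
      evalEval (a : ℤ) x R = 0 ∧ evalEval (a : ℤ) y R' = 0 := by
  classical
  obtain ⟨C1, δ0, hC1, hδ0, h1⟩ := near_root _ (topm_simple h.sq).1 (topm_simple h.sq).2
  obtain ⟨C2, hC2, h2⟩ := top_small h.H
  choose JJ hJJ using win_root hn h hR hfin
  obtain ⟨S, hS⟩ : ∃ S, S = (topm n m F).roots.toFinset := ⟨_, rfl⟩
  refine ⟨n + ∑ θ ∈ S, JJ θ, Nat.le_add_right _ _, fun Q j hQ hj' => ?_⟩
  have hj : n ≤ j := (Nat.le_add_right _ _).trans hj'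
  have hwin : ∀ θ : ℝ, ∃ (R R' : ℤ[X][X]) (A0 : ℕ) (c0 : ℝ), R ≠ 0 ∧ R' ≠ 0 ∧ 0 < c0 ∧
      (θ ∈ S → ∀ a : ℕ, A0 ≤ a → ∀ x y : ℤ,
      ev3 (a : ℤ) x y F = 0 → |y| ≤ |x| → (a : ℤ) ^ j ≤ |x| ^ Q → |x| ^ Q ≤ (a : ℤ) ^ (j + 1) →
      |(y : ℝ) / x - θ| ≤ c0 → evalEval (a : ℤ) x R = 0 ∧ evalEval (a : ℤ) y R' = 0) := by
    intro θ
    by_cases hθ : θ ∈ S
    · have h4 : JJ θ ≤ j := (single_le_sum (f := JJ) (fun _ _ => Nat.zero_le _) hθ).trans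
        ((Nat.le_add_left _ _).trans hj')
      obtain ⟨R, R', A0, c0, e1, e2, e3, e4⟩ := hJJ θ Q j hQ h4
      refine ⟨R, R', A0, c0, e1, e2, e3, fun _ => e4 ?_⟩
      rw [hS, Multiset.mem_toFinset] at hθ
      exact (mem_roots (topm_simple h.sq).1).1 hθ
    · exact ⟨1, 1, 0, 1, one_ne_zero, one_ne_zero, one_pos, fun h' => absurd h' hθ⟩
  choose Rf Rf' AA c0 hRf hRf' hc0 h3 using hwin
  rw [← hS] at h1
  obtain ⟨K, hK⟩ : ∃ K : ℝ, K = C2 / δ0 + ∑ θ ∈ S, C1 * C2 / c0 θ + 1 := ⟨_, rfl⟩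
  have hsum : 0 ≤ ∑ θ ∈ S, C1 * C2 / c0 θ := sum_nonneg fun θ _ => by
    have := hc0 θ
    positivity
  have hq0 : 0 ≤ C2 / δ0 := by positivity
  have hK1 : 1 ≤ K := by
    rw [hK]
    linarith
  refine ⟨∏ θ ∈ S, Rf θ, ∏ θ ∈ S, Rf' θ, S.sup AA + ⌈K ^ Q⌉₊ + 1,
    prod_ne_zero_iff.2 fun θ _ => hRf θ, prod_ne_zero_iff.2 fun θ _ => hRf' θ,
    fun a ha x y hev hyx hxj hxj' => ?_⟩
  have ha1 : (1 : ℝ) ≤ a := by exact_mod_cast (by omega : 1 ≤ a)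
  have hKa : K ^ Q ≤ a := by
    refine (Nat.le_ceil _).trans ?_
    exact_mod_cast (by omega : ⌈K ^ Q⌉₊ ≤ a)
  have hxjr : (a : ℝ) ^ j ≤ |(x : ℝ)| ^ Q := by exact_mod_cast hxj
  obtain ⟨s, hs⟩ : ∃ s : ℝ, s = min (a : ℝ) |(x : ℝ)| := ⟨_, rfl⟩
  have hs0 : 0 ≤ s := by
    rw [hs]
    exact le_min (by linarith) (abs_nonneg _)
  have hsa : s ≤ a := by rw [hs]; exact min_le_left _ _
  have hsx : s ≤ |(x : ℝ)| := by rw [hs]; exact min_le_right _ _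
  have hsQ : (a : ℝ) ≤ s ^ Q := by
    rw [hs]
    rcases le_total (a : ℝ) |(x : ℝ)| with h4 | h4
    · rw [min_eq_left h4]
      exact le_self_pow₀ ha1 (by omega)
    · rw [min_eq_right h4]
      exact (le_self_pow₀ ha1 (by omega : j ≠ 0)).trans hxjr
  have hKs : K ≤ s :=
    (pow_le_pow_iff_left₀ (by linarith) hs0 (by omega : Q ≠ 0)).1 (hKa.trans hsQ)
  have hs1 : 1 ≤ s := hK1.trans hKs
  have hsp : 0 < s := by linarith
  have hx0 : (x : ℝ) ≠ 0 := abs_pos.1 (by linarith)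
  have hyr : |(y : ℝ)| ≤ |(x : ℝ)| := by exact_mod_cast hyx
  have hevr : ev3 ((a : ℤ) : ℝ) (x : ℝ) (y : ℝ) F = 0 := by
    rw [ev3_cast h.H, hev, Int.cast_zero]
  have h5 := h2 ((a : ℤ) : ℝ) x y (1 / s) (by push_cast; linarith) hx0 hyr hevr
    (one_div_le_one_div_of_le hsp (by push_cast; exact hsa))
    (one_div_le_one_div_of_le hsp hsx) (by rw [div_le_one hsp]; exact hs1)
  have h6 : |(y : ℝ) / x| ≤ 1 := by
    rw [abs_div]
    exact (div_le_one (abs_pos.2 hx0)).2 hyr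
  have h7 : |(topm n m F).eval ((y : ℝ) / x)| < δ0 := by
    refine lt_of_le_of_lt h5 ?_
    rw [mul_one_div, div_lt_iff₀ hsp]
    have : C2 / δ0 < s := by
      rw [hK] at hKs
      linarith
    rw [div_lt_iff₀ hδ0] at this
    linarith
  obtain ⟨θ, hθ, h8⟩ := h1 _ h6 h7
  have h9 : |(y : ℝ) / x - θ| ≤ c0 θ := by
    refine (h8.trans (mul_le_mul_of_nonneg_left h5 hC1)).trans ?_
    have h9 : C1 * C2 / c0 θ ≤ ∑ θ ∈ S, C1 * C2 / c0 θ :=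
      single_le_sum (f := fun θ => C1 * C2 / c0 θ) (fun θ _ => by
        have := hc0 θ
        positivity) hθ
    have h10 : C1 * C2 / c0 θ ≤ s := by
      rw [hK] at hKs
      linarith
    rw [div_le_iff₀ (hc0 θ)] at h10
    rw [mul_one_div, ← mul_div_assoc, div_le_iff₀ hsp]
    linarith
  have hAA : AA θ ≤ S.sup AA := Finset.le_sup hθ
  obtain ⟨h10, h11⟩ := h3 θ hθ a (by omega) x y hev hyx hxj hxj' h9
  constructor
  · rw [← coe_evalEvalRingHom, map_prod]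
    exact prod_eq_zero hθ h10
  · rw [← coe_evalEvalRingHom, map_prod]
    exact prod_eq_zero hθ h11

private theorem ee_mul_l {a x : ℤ} {R S : ℤ[X][X]} (h : evalEval a x R = 0) :
    evalEval a x (R * S) = 0 := by
  rw [evalEval_mul, h, zero_mul]

private theorem ee_mul_r {a x : ℤ} {R S : ℤ[X][X]} (h : evalEval a x S = 0) :
    evalEval a x (R * S) = 0 := by
  rw [evalEval_mul, h, mul_zero]

private theorem ee_prod {ι : Type} {a x : ℤ} (s : Finset ι) (f : ι → ℤ[X][X]) {i : ι} (hi : i ∈ s)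
    (h : evalEval a x (f i) = 0) : evalEval a x (∏ j ∈ s, f j) = 0 := by
  classical
  rw [← Finset.mul_prod_erase s f hi]
  exact ee_mul_l h

/-- the polynomial with the zeros `|x| ≤ B` -/
private noncomputable def smR (B : ℤ) : ℤ[X][X] := ∏ z ∈ Finset.Icc (-B) B, (X - C (C z))

private theorem smR_ne (B : ℤ) : smR B ≠ 0 := by
  unfold smR
  rw [Finset.prod_ne_zero_iff]
  intro z _
  exact X_sub_C_ne_zero _

private theorem smR_ev {B a x : ℤ} (h : |x| ≤ B) : evalEval a x (smR B) = 0 := by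
  unfold smR
  refine ee_prod (Finset.Icc (-B) B) (fun z => (X - C (C z) : ℤ[X][X])) (i := x) ?_ ?_
  · rw [Finset.mem_Icc]
    exact abs_le.1 h
  · unfold evalEval
    simp

theorem half_allH {n m : ℕ} {F : ℤ[X][X][X]} (hn : 3 ≤ n) (h : HypG n m F) (hR : HG n m F)
    (hfin : AllFin n m) (hL : LargeAll F) :
    ∃ (R R' : ℤ[X][X]) (A0 : ℕ), R ≠ 0 ∧ R' ≠ 0 ∧ ∀ a : ℕ, A0 ≤ a → ∀ x y : ℤ,
      ev3 (a : ℤ) x y F = 0 → |y| ≤ |x| → evalEval (a : ℤ) x R = 0 ∧ evalEval (a : ℤ) y R' = 0 := by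
  classical
  obtain ⟨C0, hC0⟩ := hL
  obtain ⟨A1, hA1⟩ := small_fib h.H
  obtain ⟨J0, hnJ, hJ⟩ := window_halfH hn h hR hfin
  obtain ⟨Q, hQ⟩ : ∃ Q, Q = 2 * n * J0 := ⟨_, rfl⟩
  have hQ1 : 1 ≤ Q := by
    rw [hQ]
    exact Nat.mul_pos (by omega) (by omega)
  have hwin : ∀ j : ℕ, ∃ (R R' : ℤ[X][X]) (A0 : ℕ), J0 ≤ j → (R ≠ 0 ∧ R' ≠ 0 ∧ ∀ a : ℕ, A0 ≤ a →
      ∀ x y : ℤ, ev3 (a : ℤ) x y F = 0 → |y| ≤ |x| → (a : ℤ) ^ j ≤ |x| ^ Q →
        |x| ^ Q ≤ (a : ℤ) ^ (j + 1) → evalEval (a : ℤ) x R = 0 ∧ evalEval (a : ℤ) y R' = 0) := by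
    intro j
    by_cases hj : J0 ≤ j
    · obtain ⟨R, R', A0, hh⟩ := hJ Q j hQ1 hj
      exact ⟨R, R', A0, fun _ => hh⟩
    · exact ⟨0, 0, 0, fun h' => absurd h' hj⟩
  choose R R' A hh using hwin
  obtain ⟨J, hJ⟩ : ∃ J : Finset ℕ, J = Finset.Icc J0 (C0 * Q) := ⟨_, rfl⟩
  have hJn : ∀ j ∈ J, J0 ≤ j := by
    intro j hj
    rw [hJ, Finset.mem_Icc] at hj
    exact hj.1
  refine ⟨smR ((C0 : ℤ) ^ C0) * ∏ j ∈ J, R j, smR ((C0 : ℤ) ^ C0) * ∏ j ∈ J, R' j,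
    A1 + C0 + 2 + ∑ j ∈ J, A j, ?_, ?_, fun a ha x y hF hyx => ?_⟩
  · refine mul_ne_zero (smR_ne _) ?_
    rw [Finset.prod_ne_zero_iff]
    exact fun j hj => (hh j (hJn j hj)).1
  · refine mul_ne_zero (smR_ne _) ?_
    rw [Finset.prod_ne_zero_iff]
    exact fun j hj => (hh j (hJn j hj)).2.1
  by_cases hsm : |x| ^ (2 * n) ≤ (a : ℤ)
  · have h1 := hA1 a (by omega) x y hyx hsm hF
    have h2 : ev3 (C0 : ℤ) x y F = 0 := by
      rw [← fib_eval h.H, h1, eval_zero]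
    obtain ⟨h3, h4⟩ := hC0 C0 le_rfl x y h2
    exact ⟨ee_mul_l (smR_ev h3), ee_mul_l (smR_ev h4)⟩
  · push Not at hsm
    have ha1 : 1 < a := by omega
    have haz : (1 : ℤ) < a := by exact_mod_cast ha1
    have hxa : (a : ℤ) < ((x.natAbs : ℤ)) ^ (2 * n) := by
      rw [Int.natCast_natAbs]
      exact hsm
    have hxa' : a < x.natAbs ^ (2 * n) := by exact_mod_cast hxa
    obtain ⟨Y, hY⟩ : ∃ Y, Y = x.natAbs ^ Q := ⟨_, rfl⟩
    have hYz : |x| ^ Q = (Y : ℤ) := by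
      rw [hY, ← Int.natCast_natAbs]
      push_cast
      rfl
    have hYn : a ^ J0 ≤ Y := by
      rw [hY, hQ, pow_mul]
      exact Nat.pow_le_pow_left hxa'.le J0
    have hY0 : Y ≠ 0 := by
      have : 0 < a ^ J0 := by positivity
      omega
    obtain ⟨hx1, -⟩ := hC0 a (by omega) x y hF
    have hx2 : x.natAbs ≤ a ^ C0 := by
      have : (x.natAbs : ℤ) ≤ (a : ℤ) ^ C0 := by
        rw [Int.natCast_natAbs]
        exact hx1
      exact_mod_cast this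
    have hYC : Y ≤ a ^ (C0 * Q) := by
      rw [hY, pow_mul]
      exact Nat.pow_le_pow_left hx2 Q
    obtain ⟨j, hj⟩ : ∃ j, j = Nat.log a Y := ⟨_, rfl⟩
    have hj1 : a ^ j ≤ Y := by
      rw [hj]
      exact Nat.pow_log_le_self a hY0
    have hj2 : Y < a ^ (j + 1) := by
      rw [hj]
      exact Nat.lt_pow_succ_log_self ha1 Y
    have hjn : J0 ≤ j := by
      have h5 : a ^ J0 < a ^ (j + 1) := lt_of_le_of_lt hYn hj2
      have h6 := (Nat.pow_lt_pow_iff_right ha1).1 h5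
      omega
    have hjC : j ≤ C0 * Q := (Nat.pow_le_pow_iff_right ha1).1 (hj1.trans hYC)
    have hjJ : j ∈ J := by
      rw [hJ, Finset.mem_Icc]
      exact ⟨hjn, hjC⟩
    have hAj : A j ≤ a := by
      have h5 : A j ≤ ∑ j ∈ J, A j := Finset.single_le_sum (fun _ _ => Nat.zero_le _) hjJ
      omega
    obtain ⟨-, -, h7⟩ := hh j hjn
    obtain ⟨h8, h9⟩ := h7 a hAj x y hF hyx (by rw [hYz]; exact_mod_cast hj1)
      (by rw [hYz]; exact_mod_cast hj2.le)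
    exact ⟨ee_mul_r (ee_prod J R hjJ h8), ee_mul_r (ee_prod J R' hjJ h9)⟩

end Pool.Agent.H98.XH
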